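import Mathlib
import Pool.Agent.H422.CO.Main

/-!
# Compositions of any length of polynomials in `z ^ e`, and permuted maps in dimension `N`

Let `K` be a number field, `S` a finite set of finite places, `e ≥ 3`, `M ≥ 4`. There is `B` such that
for all `n ≥ 1` and all polynomials `f_0, …, f_{n-1}` in `K[z ^ e]` of degrees `D_i > 1`,
`D_i ≡ 1 mod M`, which are all integral or all dominated by their constant terms at each place
outside `S`, the composition `f_{n-1} ∘ ⋯ ∘ f_0` has at most `B` periodic points in `K`; the bound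
does not depend on `n`, nor on the degrees. For `f_i = z ^ d + c_i`, `d ≥ 5`, there is at most one
periodic point in `K`, with finitely many exceptions `(c_0, …, c_{n-1})` for each `n`. Consequence:
the maps `(x_i) ↦ (f_i(x_{σ(i)}))` of `K ^ N`, which extend to `P ^ N` if the degrees are equal, have
at most `B ^ N` periodic points in `K ^ N`.

Sketch of the proof. Let `x_{j+1} = f_j(x_j)` and `y_{j+1} = f_j(y_j)` be periodic sequences in `K`
(`f_{j+n} = f_j`), `x_0 ≠ y_0`, and `ζ ≠ 1` an `e`-th root of unity. At an integral place all `x_j`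
are integral, `|x_j - y_j|` does not increase, hence is constant, and since `x_1 - y_1` is divisible by
`x_0 ^ e - y_0 ^ e = ∏ (x_0 - ζ y_0)`, all `|x_0 - ζ y_0|`, `ζ ≠ 1`, are equal to `1`. At a dominated
place `|x_j| ^ {D_j} = |f_j(0)|`, and `|x_{j+1} - y_{j+1}| / |x_{j+1}| = E_j |x_j - y_j| / |x_j|` with
`E_j = |f_j(0)| / |x_{j+1}| > 1` an `M`-th power, as long as this is smaller than one; by periodicity it
becomes equal to one, so that `|x_0 - y_0| / |x_0|` is an `M`-th power, and, since
`f_0(ζ y_0) = f_0(y_0)`, so is `|x_0 - ζ y_0| / |x_0|`. Hence for a third periodic point `z_0` the two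
terms of an identity `t + t' = 1` formed by the quotients of `y_0 - ω z_0`, `z_0 - ω ^ {-2} x_0` and
`x_0 - ω y_0` have `M`-divisible orders outside `S`, and by Mordell's conjecture for hyperelliptic
curves over number fields (proved in `Pool/Agent/H422/HE`) there are finitely many `z_0` for given
`x_0, y_0`, with a bound independent of everything. For `f_j = z ^ d + c_j` all `x_j / y_j` lie in a
finite set which does not depend on `n`; then `(x_j, y_j) = u_j (a_j, b_j)` with finitely many
`(a_j, b_j)` and `u_{j+1} = μ_j u_j ^ d` with finitely many `μ_j ≠ 0`, hence finitely many `u_0`, since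
the periods are bounded.
-/

set_option autoImplicit false

open Polynomial IsDedekindDomain NumberField

namespace Pool.Agent.Results.MP_13bc7b_nt.Compositions

open Pool.Agent.H422.UC Pool.Agent.H422.CO

section defs

variable {K : Type*} [Field K]

/-- `x` is periodic under `F` -/
def Periodic {X : Type*} (F : X → X) (x : X) : Prop := ∃ n : ℕ, 0 < n ∧ F^[n] x = x

/-- the composition `f (n - 1) ∘ ⋯ ∘ f 0` -/
noncomputable def compose (f : ℕ → K[X]) : ℕ → K[X]
  | 0 => X
  | n + 1 => (f n).comp (compose f n)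

/-- the map `x ↦ (f i (x (σ i)))` of `K ^ N` -/
def permMap {N : ℕ} (σ : Equiv.Perm (Fin N)) (f : Fin N → K[X]) (x : Fin N → K) : Fin N → K :=
  fun i => (f i).eval (x (σ i))

variable {Γ : Type*} [LinearOrderedCommGroupWithZero Γ]

/-- (I): the polynomials `f i` are integral, with leading coefficients units, at the place `v` -/
def Integral {I : Type*} (v : Valuation K Γ) (f : I → K[X]) : Prop :=
  ∀ i, v (f i).leadingCoeff = 1 ∧ ∀ k, v ((f i).coeff k) ≤ 1

/-- (II): the polynomials `f i` are dominated by their constant terms at the place `v`; `s i` is the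
index of the polynomial which is applied after `f i` -/
def Dominated {I : Type*} (v : Valuation K Γ) (M : ℕ) (s : I → I) (f : I → K[X]) : Prop :=
  ∀ i, v (f i).leadingCoeff = 1 ∧ v ((f i).natDegree : K) = 1 ∧ 1 < v ((f i).coeff 0) ∧
    (∀ k, 0 < k → k < (f i).natDegree →
      v ((f i).coeff k) ^ (f i).natDegree < v ((f i).coeff 0) ^ ((f i).natDegree - k)) ∧
    v ((f (s i)).coeff 0) < v ((f i).coeff 0) ^ (f (s i)).natDegree ∧
    ∃ a : K, v ((f (s i)).coeff 0) ^ (f i).natDegree =
      v ((f i).coeff 0) ^ (f (s i)).natDegree * v a ^ (M * (f i).natDegree * (f (s i)).natDegree)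

lemma compose_eq (f : ℕ → K[X]) (n : ℕ) : compose f n = Pool.Agent.H422.CO.cmp f n := by
  induction n with
  | zero => rfl
  | succ n ih => rw [compose, Pool.Agent.H422.CO.cmp, ih]

lemma Integral.in {I : Type*} {v : Valuation K Γ} {f : I → K[X]} (h : Integral v f) (t : ℕ → I) :
    In v (fun k => f (t k)) :=
  ⟨fun _ => (h _).1, fun _ => (h _).2⟩

lemma Dominated.dm {I : Type*} {v : Valuation K Γ} {M : ℕ} {s : I → I} {f : I → K[X]}
    (h : Dominated v M s f) (t : ℕ → I) (ht : ∀ k, t (k + 1) = s (t k)) :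
    Dm v M (fun k => f (t k)) := by
  constructor
  · exact fun _ => (h _).1
  · exact fun _ => (h _).2.1
  · exact fun _ => (h _).2.2.1
  · exact fun _ => (h _).2.2.2.1
  · intro i
    rw [ht]
    exact (h _).2.2.2.2.1
  · intro i
    rw [ht]
    exact (h _).2.2.2.2.2

end defs

theorem result (K : Type) [Field K] [NumberField K] {S : Set (HeightOneSpectrum (𝓞 K))}
    (hS : S.Finite) :
    (∀ M e : ℕ, 4 ≤ M → 3 ≤ e → ∃ B : ℕ,
      (∀ (n : ℕ) (f : ℕ → K[X]), 0 < n → (∀ i, f (i + n) = f i) →
        (∀ i, 2 ≤ (f i).natDegree ∧ M ∣ (f i).natDegree - 1 ∧ ∃ g : K[X], f i = g.comp (X ^ e)) →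
        (∀ v ∉ S, Integral (v.valuation K) f ∨
          Dominated (v.valuation K) M (fun i : ℕ => i + 1) f) →
        ∀ T : Finset K, (∀ x ∈ T, Periodic (fun z => (compose f n).eval z) x) → T.card ≤ B) ∧
      (∀ (N : ℕ) (σ : Equiv.Perm (Fin N)) (f : Fin N → K[X]),
        (∀ i, 2 ≤ (f i).natDegree ∧ M ∣ (f i).natDegree - 1 ∧ ∃ g : K[X], f i = g.comp (X ^ e)) →
        (∀ v ∉ S, Integral (v.valuation K) f ∨ Dominated (v.valuation K) M σ.symm f) →
        ∀ T : Finset (Fin N → K), (∀ x ∈ T, Periodic (permMap σ f) x) → T.card ≤ B ^ N)) ∧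
    (∀ d n : ℕ, 5 ≤ d → 0 < n →
      {c : ℕ → K | (∀ i, c (i + n) = c i) ∧
        (∀ v ∉ S, Integral (v.valuation K) (fun i => X ^ d + C (c i)) ∨
          Dominated (v.valuation K) (d - 1) (fun i : ℕ => i + 1) (fun i => X ^ d + C (c i))) ∧
        ∃ a b : K, a ≠ b ∧
          Periodic (fun z => (compose (fun i => X ^ d + C (c i)) n).eval z) a ∧
          Periodic (fun z => (compose (fun i => X ^ d + C (c i)) n).eval z) b}.Finite) := by
  refine ⟨fun M e hM he => ?_, fun d n hd hn => ?_⟩
  · obtain ⟨B1, hB1⟩ := seq_bound K hS hM he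
    obtain ⟨B2, hB2⟩ := pmap_bound K hS hM he
    refine ⟨B1 + B2, ?_, ?_⟩
    · intro n f hn hf hdeg hloc T hT
      refine (hB1 f (fun i => (hdeg i).1) (fun i => (hdeg i).2.1) (fun i => (hdeg i).2.2) ?_ T ?_).trans
        (Nat.le_add_right _ _)
      · intro v hv
        rcases hloc v hv with h | h
        · exact Or.inl (h.in (fun k => k))
        · exact Or.inr (h.dm (fun k => k) (fun _ => rfl))
      · intro x hx
        have := hT x hx
        rw [compose_eq] at this
        exact cy_of_per hn hf this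
    · intro N σ f hdeg hloc T hT
      refine (hB2 N σ f (fun i => (hdeg i).1) (fun i => (hdeg i).2.1) (fun i => (hdeg i).2.2) ?_ T
        hT).trans (Nat.pow_le_pow_left (Nat.le_add_left _ _) _)
      intro v hv i
      rcases hloc v hv with h | h
      · exact Or.inl (h.in (fun k => (σ⁻¹ ^ (k + 1)) i))
      · refine Or.inr (h.dm (fun k => (σ⁻¹ ^ (k + 1)) i) (fun k => ?_))
        rw [pow_succ' σ⁻¹ (k + 1), Equiv.Perm.mul_apply]
        rfl
  · refine (uni_finite K hS hd hn).subset ?_
    rintro c ⟨hc, hloc, a, b, hab, pa, pb⟩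
    rw [compose_eq] at pa pb
    refine ⟨hc, fun v hv => ?_, a, b, hab, pa, pb⟩
    rcases hloc v hv with h | h
    · exact Or.inl (h.in (fun k => k))
    · exact Or.inr (h.dm (fun k => k) (fun _ => rfl))

end Pool.Agent.Results.MP_13bc7b_nt.Compositions
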