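import Pool.Agent.H912.DY.P6
import Pool.Agent.H912.DY.R8

/-!
# The degrees of the preperiodic points of 100% of the rational maps

We consider the rational maps `f = p / q` of degree `d ≥ 2` of the projective line over a number
field `K`. The degree of a point `P` over the algebraic closure is `[K(P) : K]`. For 100% of the maps:

* there are exactly `d + 1` fixed points, all of degree `d + 1`, and exactly `d (d - 1)` points of
  exact period two, all of degree `d (d - 1)`;
* the degrees of all preperiodic points, of all periods and preperiods, are divisible by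
  `d (d + 1)`, `d (d - 1)` or `d + 1`, if the cycle has length at least three, two or one;
* so there are no preperiodic points of degree at most `d` (for `d ≥ 3`), and the number of periodic
  points of degree at most `B` is known exactly for all `B < d (d + 1)`;
* let `K[f]` be the maximal Galois extension of `K` of exponent `f`, a field of infinite degree. There
  are preperiodic points over `K[f]` only if `f` is divisible by `d (d + 1)` (for `d ≥ 3`), and there is
  a fixed point over `K[f]` if and only if `f` is divisible by `1, ..., d + 1`.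

The proof is the analysis of `d + 1` primes of `K`, which are simple poles of one coefficient of `p`
while all other coefficients are units; for 100% of the maps there are such primes. At a simple pole `v` of the
leading coefficient of `p` there is one attracting fixed point near `∞`, and all other periodic points
have absolute value `|π|_v ^ (1 / d)`. At a simple pole of the constant coefficient of `p` there is
an attracting cycle of length two near `∞`, and all other periodic points have absolute value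
`|π|_v ^ (- 1 / (d + 1))`. For the points of period two the number of the conjugates in the
attracting cycle is at most two, the number of the other ones is divisible by `d + 1` (consider the
norm and the inertia group), and the degree is divisible by `d`: this leaves only `d (d - 1)`.
-/

namespace Pool.Agent.Results.MP_13bc7b_nt.ExactDegrees

open Polynomial NumberField Filter Topology IsDedekindDomain

open Classical in
/-- The rational map `p / q` on the projective line `L ∪ {∞}` over the field `L`, for polynomials `p`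
and `q` of degree at most `d`; `none` is the point `∞`. -/
noncomputable def ratMap {L : Type} [Field L] (d : ℕ) (p q : L[X]) : Option L → Option L
  | none => if q.coeff d = 0 then none else some (p.coeff d / q.coeff d)
  | some x => if q.eval x = 0 then none else some (p.eval x / q.eval x)

/-- The rational map `p / q` on the projective line over the algebraic closure of `K`. -/
noncomputable def fbar {K : Type} [Field K] (d : ℕ) (p q : K[X]) :
    Option (AlgebraicClosure K) → Option (AlgebraicClosure K) :=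
  ratMap d (p.map (algebraMap K (AlgebraicClosure K))) (q.map (algebraMap K (AlgebraicClosure K)))

/-- The degree `[K(P) : K]` of a point of the projective line over the algebraic closure of `K`. -/
noncomputable def degree (K : Type) [Field K] : Option (AlgebraicClosure K) → ℕ
  | none => 1
  | some x => Module.finrank K (IntermediateField.adjoin K {x})

/-- The periodic points, of all periods, over the algebraic closure. -/
def Per {K : Type} [Field K] (d : ℕ) (p q : K[X]) : Set (Option (AlgebraicClosure K)) :=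
  {P | ∃ n : ℕ, 0 < n ∧ (fbar d p q)^[n] P = P}

/-- `P` is preperiodic and `Q` is a point of its cycle. -/
def EndsIn {K : Type} [Field K] (d : ℕ) (p q : K[X]) (P Q : Option (AlgebraicClosure K)) : Prop :=
  ∃ m n : ℕ, 0 < n ∧ (fbar d p q)^[m] P = Q ∧ (fbar d p q)^[n] Q = Q

/-- The points of exact period two. -/
def Two {K : Type} [Field K] (d : ℕ) (p q : K[X]) : Set (Option (AlgebraicClosure K)) :=
  {P | (fbar d p q)^[2] P = P ∧ fbar d p q P ≠ P}

/-- The field `K[f]`: all `α` in the algebraic closure of `K` which are fixed by the `f`-th powers of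
all automorphisms over `K`. It is the union of all finite Galois extensions of `K` whose group has an
exponent dividing `f`. -/
def expClosure (K : Type) [Field K] (f : ℕ) : IntermediateField K (AlgebraicClosure K) where
  carrier := {α | ∀ σ : AlgebraicClosure K ≃ₐ[K] AlgebraicClosure K, (σ ^ f) α = α}
  mul_mem' {a b} ha hb σ := by rw [map_mul, ha σ, hb σ]
  add_mem' {a b} ha hb σ := by rw [map_add, ha σ, hb σ]
  algebraMap_mem' a σ := AlgEquiv.commutes _ a
  inv_mem' a ha σ := by rw [map_inv₀, ha σ]

/-- `P` is a point of the projective line over the field `K[f]`. -/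
def Over {K : Type} [Field K] (f : ℕ) (P : Option (AlgebraicClosure K)) : Prop :=
  ∀ x, P = some x → x ∈ expClosure K f

/-- The properties of 100% of the rational maps of degree `d` over `K`. -/
structure Typical {K : Type} [Field K] (d : ℕ) (p q : K[X]) : Prop where
  /-- There are exactly `d + 1` fixed points. -/
  card_fixed : {P | fbar d p q P = P}.ncard = d + 1
  /-- The fixed points have degree `d + 1`. -/
  degree_fixed : ∀ P, fbar d p q P = P → degree K P = d + 1
  /-- There are exactly `d (d - 1)` points of exact period two. -/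
  card_two : (Two d p q).ncard = d * (d - 1)
  /-- The points of exact period two have degree `d (d - 1)`. -/
  degree_two : ∀ P ∈ Two d p q, degree K P = d * (d - 1)
  /-- The degrees of the preperiodic points with a cycle of length one. -/
  dvd_one : ∀ P Q, EndsIn d p q P Q → fbar d p q Q = Q → d + 1 ∣ degree K P
  /-- The degrees of the preperiodic points with a cycle of length two. -/
  dvd_two : ∀ P Q, EndsIn d p q P Q → Q ∈ Two d p q → d * (d - 1) ∣ degree K P
  /-- The degrees of the preperiodic points with a cycle of length at least three. -/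
  dvd_three : ∀ P Q, EndsIn d p q P Q → (fbar d p q)^[2] Q ≠ Q → d * (d + 1) ∣ degree K P
  /-- There are no preperiodic points of small degree. -/
  none_small : ∀ P Q, EndsIn d p q P Q → min (d + 1) (d * (d - 1)) ≤ degree K P
  /-- The number of the periodic points of degree at most `B` for all `B < d (d + 1)`. -/
  card_medium : ∀ B : ℕ, B < d * (d + 1) → {P | P ∈ Per d p q ∧ degree K P ≤ B}.ncard =
    (if d + 1 ≤ B then d + 1 else 0) + (if d * (d - 1) ≤ B then d * (d - 1) else 0)
  /-- There are preperiodic points over the infinite field `K[f]` only if `f` is divisible by `d` and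
  by `d + 1`; if `d = 2` then the points with a cycle of length two are an exception. -/
  exponent : ∀ (f : ℕ) (P Q), Over f P → EndsIn d p q P Q →
    d ∣ f ∧ (d + 1 ∣ f ∨ d = 2 ∧ Q ∈ Two d p q)
  /-- There is a preperiodic point over `K[f]` with a cycle of length one if and only if `f` is
  divisible by `1, ..., d + 1`. -/
  exponent_fixed : ∀ f : ℕ, (∃ P Q, Over f P ∧ EndsIn d p q P Q ∧ fbar d p q Q = Q) ↔
    ∀ j, 1 ≤ j → j ≤ d + 1 → j ∣ f
  /-- If `f` is divisible by `1, ..., d + 1` then all fixed points are defined over `K[f]`. -/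
  fixed_over : ∀ f : ℕ, (∀ j, 1 ≤ j → j ≤ d + 1 → j ∣ f) → ∀ P, fbar d p q P = P → Over f P

/-- The coefficient number `k`, a quotient of two integers of `K`. The coefficients `(i, 0)` are those
of the numerator `p`, and the coefficients `(i, 1)` are those of the denominator `q`. -/
noncomputable def coef {K : Type} [Field K] {d : ℕ} (c : (Fin (d + 1) × Fin 2) × Fin 2 → 𝓞 K)
    (k : Fin (d + 1) × Fin 2) : K :=
  algebraMap (𝓞 K) K (c (k, 0)) / algebraMap (𝓞 K) K (c (k, 1))

/-- The numerator `p` (`s = 0`) or denominator `q` (`s = 1`) of the map. -/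
noncomputable def poly {K : Type} [Field K] {d : ℕ} (c : (Fin (d + 1) × Fin 2) × Fin 2 → 𝓞 K)
    (s : Fin 2) : K[X] :=
  ∑ i : Fin (d + 1), C (coef c (i, s)) * X ^ (i : ℕ)

/-- The denominators of the coefficients are not zero, and `p / q` is a rational map of degree `d`. -/
def IsMap {K : Type} [Field K] {d : ℕ} (c : (Fin (d + 1) × Fin 2) × Fin 2 → 𝓞 K) : Prop :=
  (∀ k, c (k, 1) ≠ 0) ∧ IsCoprime (poly c 0) (poly c 1) ∧
    max (poly c 0).natDegree (poly c 1).natDegree = d

/-- All numerators and denominators have coordinates at most `X` in absolute value with respect to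
the integral basis `ω`. -/
def box {K : Type} [Field K] {J : Type} (ω : Module.Basis J ℤ (𝓞 K)) (d X : ℕ) :
    Set ((Fin (d + 1) × Fin 2) × Fin 2 → 𝓞 K) :=
  {c | ∀ k j, |ω.repr (c k) j| ≤ (X : ℤ)}

lemma coeff_poly {K : Type} [Field K] {d : ℕ} (c : (Fin (d + 1) × Fin 2) × Fin 2 → 𝓞 K)
    (s : Fin 2) (j : Fin (d + 1)) : (poly c s).coeff j = coef c (j, s) := by
  unfold poly
  rw [finsetSum_coeff]
  simp only [coeff_C_mul, coeff_X_pow]
  rw [Finset.sum_eq_single j]
  · rw [if_pos rfl, mul_one]
  · intro i _ hij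
    rw [if_neg (fun h => hij (Fin.ext h.symm)), mul_zero]
  · exact fun h => absurd (Finset.mem_univ _) h

lemma coeff_poly_of_lt {K : Type} [Field K] {d : ℕ} (c : (Fin (d + 1) × Fin 2) × Fin 2 → 𝓞 K)
    (s : Fin 2) {j : ℕ} (hj : d < j) : (poly c s).coeff j = 0 := by
  unfold poly
  rw [finsetSum_coeff]
  refine Finset.sum_eq_zero fun i _ => ?_
  rw [coeff_C_mul, coeff_X_pow, if_neg, mul_zero]
  intro h
  have := i.2
  omega

lemma natDegree_poly_le {K : Type} [Field K] {d : ℕ} (c : (Fin (d + 1) × Fin 2) × Fin 2 → 𝓞 K)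
    (s : Fin 2) : (poly c s).natDegree ≤ d := by
  rw [natDegree_le_iff_coeff_eq_zero]
  exact fun j hj => coeff_poly_of_lt c s hj

lemma val_coef {K : Type} [Field K] [NumberField K] {d : ℕ}
    {c : (Fin (d + 1) × Fin 2) × Fin 2 → 𝓞 K} {v : HeightOneSpectrum (𝓞 K)}
    {k : Fin (d + 1) × Fin 2} (h : ∀ l, c (k, l) ∉ v.asIdeal) :
    v.valuation K (coef c k) = 1 := by
  unfold coef
  rw [map_div₀, Pool.Agent.H912.DY.val_unit v (h 0), Pool.Agent.H912.DY.val_unit v (h 1), div_one]

/-- a simple pole of the coefficient number `j` of the numerator -/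
lemma of_pole {K : Type} [Field K] [NumberField K] {d : ℕ}
    {c : (Fin (d + 1) × Fin 2) × Fin 2 → 𝓞 K} {v : HeightOneSpectrum (𝓞 K)} {j : Fin (d + 1)}
    (h : Pool.Agent.H912.DY.SimplePole ((j, (0 : Fin 2)), (1 : Fin 2)) c v) :
    (∀ k, c (k, 1) ≠ 0) ∧ Pool.Agent.H912.DY.PoleQ v (poly c 0) (poly c 1) d j := by
  obtain ⟨h1, h2, h3⟩ := h
  have hpole : v.valuation K (algebraMap (𝓞 K) K (c ((j, 0), 1))) = WithZero.exp (-1 : ℤ) :=
    Pool.Agent.H912.DY.val_simple v h1 h2
  have hj' : v.valuation K (coef c (j, 0)) = WithZero.exp 1 := by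
    unfold coef
    rw [map_div₀, hpole, Pool.Agent.H912.DY.val_unit v (h3 ((j, 0), 0) (by simp)),
      WithZero.exp_neg, one_div, inv_inv]
  have hi : ∀ k : Fin (d + 1) × Fin 2, k ≠ (j, 0) → v.valuation K (coef c k) = 1 := by
    intro k hk
    exact val_coef fun l => h3 (k, l) (fun h => hk (Prod.ext_iff.1 h).1)
  refine ⟨fun k => ?_, natDegree_poly_le c 0, natDegree_poly_le c 1, ?_, ?_, ?_⟩
  · by_cases hk : k = (j, 0)
    · subst hk
      intro h
      apply h2
      rw [h]
      exact Ideal.zero_mem _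
    · intro h
      apply h3 (k, 1) (fun h' => hk (Prod.ext_iff.1 h').1)
      rw [h]
      exact Ideal.zero_mem _
  · rw [coeff_poly]
    exact hj'
  · intro i hi' hid
    have := coeff_poly c 0 ⟨i, by omega⟩
    simp only at this
    rw [this]
    refine hi _ fun h => hid ?_
    exact congrArg Fin.val (Prod.ext_iff.1 h).1
  · intro i hi'
    have := coeff_poly c 1 ⟨i, by omega⟩
    simp only at this
    rw [this]
    refine hi _ fun h => ?_
    have h5 : (1 : Fin 2) = 0 := (Prod.ext_iff.1 h).2
    exact absurd h5 (by decide)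

lemma fbar_eq {K : Type} [Field K] (d : ℕ) (p q : K[X]) :
    fbar d p q = Pool.Agent.H912.DY.rbar d p q := by
  funext P
  cases P with
  | none => rfl
  | some x => rfl

/-- the properties follow from the existence of simple poles -/
theorem typical_of_poles {K : Type} [Field K] [NumberField K] {d : ℕ} (hd : 2 ≤ d) {p q : K[X]}
    (hV : ∀ j, j ≤ d → ∃ (v : HeightOneSpectrum (𝓞 K)) (l : ℕ), l.Prime ∧ d + 2 ≤ l ∧
      v.valuation K (l : K) < 1 ∧ Pool.Agent.H912.DY.PoleQ v p q d j) : Typical d p q := by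
  have hV' : ∀ j : ℕ, ∃ (v : HeightOneSpectrum (𝓞 K)) (l : ℕ), j ≤ d → l.Prime ∧ d + 2 ≤ l ∧
      v.valuation K (l : K) < 1 ∧ Pool.Agent.H912.DY.PoleQ v p q d j := by
    intro j
    by_cases hj : j ≤ d
    · obtain ⟨v, l, h1⟩ := hV j hj
      exact ⟨v, l, fun _ => h1⟩
    · obtain ⟨v, l, -⟩ := hV 0 (Nat.zero_le d)
      exact ⟨v, l, fun h => absurd h hj⟩
  choose V l hVl using hV'
  have h : Pool.Agent.H912.DY.PoleQ (V 0) p q d 0 := (hVl 0 (Nat.zero_le d)).2.2.2
  have h' : Pool.Agent.H912.DY.PoleQ (V d) p q d d := (hVl d le_rfl).2.2.2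
  have hdeg : ∀ (P : Option (AlgebraicClosure K)) (n : ℕ), (∃ x, P = some x ∧
      Module.finrank K (IntermediateField.adjoin K {x}) = n) → degree K P = n := by
    rintro P n ⟨x, rfl, hx⟩
    exact hx
  have hfix : ∀ P, fbar d p q P = P → degree K P = d + 1 := fun P hP =>
    hdeg P _ ((h.fixed hd).2 P (by rw [← fbar_eq]; exact hP))
  have htwo : ∀ P ∈ Two d p q, degree K P = d * (d - 1) := fun P hP =>
    hdeg P _ ((h.two h' hd).2 P (by rw [← fbar_eq]; exact hP.1) (by rw [← fbar_eq]; exact hP.2))
  have hcf : {P | fbar d p q P = P}.ncard = d + 1 := by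
    rw [fbar_eq]
    exact (h.fixed hd).1
  have hct : (Two d p q).ncard = d * (d - 1) := by
    unfold Two
    rw [fbar_eq]
    exact (h.two h' hd).1
  have hpre : ∀ P Q, EndsIn d p q P Q → 0 < degree K P ∧
      (fbar d p q Q = Q → d + 1 ∣ degree K P) ∧
      (Q ∈ Two d p q → d * (d - 1) ∣ degree K P) ∧
      ((fbar d p q)^[2] Q ≠ Q → d * (d + 1) ∣ degree K P) := by
    rintro P Q ⟨m, n, hn, hm, hQ⟩
    rw [fbar_eq] at hm hQ
    have h1 : (Pool.Agent.H912.DY.rbar d p q)^[m + n] P =
        (Pool.Agent.H912.DY.rbar d p q)^[m] P := by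
      rw [add_comm, Function.iterate_add_apply, hm, hQ]
    obtain ⟨x, rfl, h2, h3, h4⟩ := h.preper h' hd hn h1
    rw [hm] at h2 h3 h4
    have hfd : FiniteDimensional K (IntermediateField.adjoin K {x}) :=
      IntermediateField.adjoin.finiteDimensional (Algebra.IsIntegral.isIntegral x)
    refine ⟨Module.finrank_pos, ?_, ?_, ?_⟩
    · rw [fbar_eq]
      exact h2
    · intro h5
      refine h3 ?_ ?_
      · have := h5.2
        rwa [fbar_eq] at this
      · have := h5.1
        rwa [fbar_eq] at this
    · rw [fbar_eq]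
      exact h4
  have hper : ∀ P ∈ Per d p q, EndsIn d p q P P := fun P ⟨n, hn, hP⟩ => ⟨0, n, hn, rfl, hP⟩
  have hcases : ∀ Q, fbar d p q Q = Q ∨ Q ∈ Two d p q ∨ (fbar d p q)^[2] Q ≠ Q := by
    intro Q
    by_cases h1 : (fbar d p q)^[2] Q = Q
    · by_cases h2 : fbar d p q Q = Q
      · exact Or.inl h2
      · exact Or.inr (Or.inl ⟨h1, h2⟩)
    · exact Or.inr (Or.inr h1)
  have hd1 : d * (d - 1) ≤ d * (d + 1) := Nat.mul_le_mul_left d (by omega)
  have hexp : ∀ (f : ℕ) (P Q), Over f P → EndsIn d p q P Q →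
      (fbar d p q Q = Q → ∀ j, 1 ≤ j → j ≤ d + 1 → j ∣ f) ∧
      (Q ∈ Two d p q → d ∣ f ∧ (3 ≤ d → d + 1 ∣ f)) ∧
      ((fbar d p q)^[2] Q ≠ Q → d ∣ f ∧ d + 1 ∣ f) := by
    rintro f P Q hPf ⟨m, n, hn, hm, hQ⟩
    rw [fbar_eq] at hm hQ
    have h1 : (Pool.Agent.H912.DY.rbar d p q)^[m + n] P =
        (Pool.Agent.H912.DY.rbar d p q)^[m] P := by
      rw [add_comm, Function.iterate_add_apply, hm, hQ]
    obtain ⟨x, rfl, -⟩ := h.preper h' hd hn h1
    have hxf : x ∈ Pool.Agent.H912.AE.expField K f := fun σ => hPf x rfl σ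
    obtain ⟨h2, h3, h4⟩ := Pool.Agent.H912.DY.PoleQ.preper_exp (V := V) (l := l)
      (fun j hj => (hVl j hj).2.2.2) (fun j hj => (hVl j hj).1) (fun j hj => (hVl j hj).2.2.1)
      (fun j hj => by
        have h5 := (hVl j hj).2.1
        omega) hd (f := f) hxf hn h1
    rw [hm] at h2 h3 h4
    refine ⟨?_, ?_, ?_⟩
    · rw [fbar_eq]
      exact h2
    · intro h5
      refine h3 ?_ ?_
      · have := h5.2
        rwa [fbar_eq] at this
      · have := h5.1
        rwa [fbar_eq] at this
    · rw [fbar_eq]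
      exact h4
  have hfo : ∀ f : ℕ, (∀ j, 1 ≤ j → j ≤ d + 1 → j ∣ f) → ∀ P, fbar d p q P = P → Over f P := by
    rintro f hf P hP x rfl
    rw [fbar_eq] at hP
    exact fun σ => h.fixed_mem hd hf hP σ
  refine ⟨hcf, hfix, hct, htwo, fun P Q hPQ => (hpre P Q hPQ).2.1,
    fun P Q hPQ => (hpre P Q hPQ).2.2.1, fun P Q hPQ => (hpre P Q hPQ).2.2.2, ?_, ?_, ?_, ?_, ?_⟩
  · intro P Q hPQ
    obtain ⟨h0, h1, h2, h3⟩ := hpre P Q hPQ
    rcases hcases Q with hQ | hQ | hQ
    · exact (min_le_left _ _).trans (Nat.le_of_dvd h0 (h1 hQ))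
    · exact (min_le_right _ _).trans (Nat.le_of_dvd h0 (h2 hQ))
    · exact (min_le_right _ _).trans (hd1.trans (Nat.le_of_dvd h0 (h3 hQ)))
  · intro B hB
    have hF : {P | fbar d p q P = P}.Finite := Set.finite_of_ncard_pos (by rw [hcf]; omega)
    have hT : (Two d p q).Finite := Set.finite_of_ncard_pos (by
      rw [hct]
      exact Nat.mul_pos (by omega) (by omega))
    have h1 : {P | P ∈ Per d p q ∧ degree K P ≤ B} =
        {P | fbar d p q P = P ∧ d + 1 ≤ B} ∪ {P | P ∈ Two d p q ∧ d * (d - 1) ≤ B} := by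
      ext P
      constructor
      · rintro ⟨hP, hPB⟩
        rcases hcases P with hQ | hQ | hQ
        · left
          exact ⟨hQ, by rw [← hfix P hQ]; exact hPB⟩
        · right
          exact ⟨hQ, by rw [← htwo P hQ]; exact hPB⟩
        · obtain ⟨h0, -, -, h3⟩ := hpre P P (hper P hP)
          have := Nat.le_of_dvd h0 (h3 hQ)
          omega
      · rintro (⟨hQ, hQB⟩ | ⟨hQ, hQB⟩)
        · refine ⟨⟨1, one_pos, hQ⟩, ?_⟩
          rw [hfix P hQ]
          exact hQB
        · refine ⟨⟨2, two_pos, hQ.1⟩, ?_⟩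
          rw [htwo P hQ]
          exact hQB
    have h2 : {P | fbar d p q P = P ∧ d + 1 ≤ B}.ncard = if d + 1 ≤ B then d + 1 else 0 := by
      split_ifs with hB1
      · have h3 : {P | fbar d p q P = P ∧ d + 1 ≤ B} = {P | fbar d p q P = P} := by
          ext P
          exact ⟨fun h4 => h4.1, fun h4 => ⟨h4, hB1⟩⟩
        rw [h3, hcf]
      · have h3 : {P | fbar d p q P = P ∧ d + 1 ≤ B} = ∅ := by
          ext P
          exact ⟨fun h4 => (hB1 h4.2).elim, fun h4 => absurd h4 (Set.notMem_empty P)⟩
        rw [h3, Set.ncard_empty]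
    have h3 : {P | P ∈ Two d p q ∧ d * (d - 1) ≤ B}.ncard =
        if d * (d - 1) ≤ B then d * (d - 1) else 0 := by
      split_ifs with hB1
      · have h3 : {P | P ∈ Two d p q ∧ d * (d - 1) ≤ B} = Two d p q := by
          ext P
          exact ⟨fun h4 => h4.1, fun h4 => ⟨h4, hB1⟩⟩
        rw [h3, hct]
      · have h3 : {P | P ∈ Two d p q ∧ d * (d - 1) ≤ B} = ∅ := by
          ext P
          exact ⟨fun h4 => (hB1 h4.2).elim, fun h4 => absurd h4 (Set.notMem_empty P)⟩
        rw [h3, Set.ncard_empty]
    rw [h1, Set.ncard_union_eq ?_ (hF.subset fun P hP => hP.1) (hT.subset fun P hP => hP.1), h2, h3]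
    rw [Set.disjoint_left]
    rintro P ⟨hP, -⟩ ⟨hP', -⟩
    exact hP'.2 hP
  · intro f P Q hPf hPQ
    obtain ⟨h1, h2, h3⟩ := hexp f P Q hPf hPQ
    rcases hcases Q with hQ | hQ | hQ
    · exact ⟨h1 hQ d (by omega) (by omega), Or.inl (h1 hQ (d + 1) (by omega) le_rfl)⟩
    · refine ⟨(h2 hQ).1, ?_⟩
      rcases Nat.lt_or_ge d 3 with h4 | h4
      · exact Or.inr ⟨by omega, hQ⟩
      · exact Or.inl ((h2 hQ).2 h4)
    · exact ⟨(h3 hQ).1, Or.inl (h3 hQ).2⟩
  · intro f
    constructor
    · rintro ⟨P, Q, hPf, hPQ, hQ⟩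
      exact (hexp f P Q hPf hPQ).1 hQ
    · intro hf
      obtain ⟨P, hP⟩ := Set.nonempty_of_ncard_ne_zero (s := {P | fbar d p q P = P})
        (by rw [hcf]; omega)
      exact ⟨P, P, hfo f hf P hP, hper P ⟨1, one_pos, hP⟩, hP⟩
  · exact hfo

/-- **The preperiodic points of 100% of the rational maps.** Let `K` be a number field with integral
basis `ω` and `d ≥ 2`. 100% of the data `c` (in the boxes given by `ω`) define a rational map of
degree `d` over `K` with the following properties (see `Typical`): there are exactly `d + 1` fixed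
points, all of degree `d + 1` over `K`, and exactly `d (d - 1)` points of exact period two, all of
degree `d (d - 1)`; the degree of a preperiodic point is divisible by `d + 1`, by `d (d - 1)` or by
`d (d + 1)` if its cycle has length one, two or at least three; so the degree of all preperiodic
points is at least `min (d + 1) (d (d - 1))`; the number of the periodic points of degree at
most `B`, for `B < d (d + 1)`, is `d + 1` (if `B ≥ d + 1`) plus `d (d - 1)` (if `B ≥ d (d - 1)`);
and there are preperiodic points over the infinite field `K[f]` only if `d (d + 1)` divides `f` (if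
`d ≥ 3`), with a cycle of length one if and only if `1, ..., d + 1` divide `f`. -/
theorem result {K : Type} [Field K] [NumberField K] {J : Type} [Fintype J]
    (ω : Module.Basis J ℤ (𝓞 K)) (d : ℕ) (hd : 2 ≤ d) :
    Tendsto (fun X : ℕ => ({c | c ∈ box ω d X ∧ IsMap c ∧
      Typical d (poly c 0) (poly c 1)}.ncard : ℝ) / ((box ω d X).ncard : ℝ)) atTop (𝓝 1) := by
  refine Pool.Agent.H912.DY.tendsto_one (ι := (Fin (d + 1) × Fin 2) × Fin 2) ω
    (T := {c | IsMap c ∧ Typical d (poly c 0) (poly c 1)}) ?_
  intro ε hε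
  have hX : ∀ k : Fin (d + 1), ∃ X₀ : ℕ, ∀ X : ℕ, X₀ ≤ X →
      ({a | a ∈ Pool.Agent.H912.DY.box ω ((Fin (d + 1) × Fin 2) × Fin 2) X ∧
        ¬ ∃ (v : HeightOneSpectrum (𝓞 K)) (p : ℕ), p.Prime ∧ d + 2 ≤ p ∧
        v.valuation K (p : K) < 1 ∧ Pool.Agent.H912.DY.SimplePole
          ((k, (0 : Fin 2)), (1 : Fin 2)) a v}.ncard : ℝ) ≤
        (ε / (d + 1)) *
          (Pool.Agent.H912.DY.box ω ((Fin (d + 1) × Fin 2) × Fin 2) X).ncard := fun k =>
    Pool.Agent.H912.DY.sieve_pole' (ι := (Fin (d + 1) × Fin 2) × Fin 2) ω _ (d + 2) (by positivity)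
  choose X₀ hX₀ using hX
  refine ⟨Finset.univ.sup X₀, fun X hXX => ?_⟩
  have hle : ∀ k : Fin (d + 1), X₀ k ≤ X := fun k =>
    (Finset.le_sup (Finset.mem_univ k)).trans hXX
  set bad : Fin (d + 1) → Set ((Fin (d + 1) × Fin 2) × Fin 2 → 𝓞 K) := fun k =>
    {a | a ∈ Pool.Agent.H912.DY.box ω ((Fin (d + 1) × Fin 2) × Fin 2) X ∧
        ¬ ∃ (v : HeightOneSpectrum (𝓞 K)) (p : ℕ), p.Prime ∧ d + 2 ≤ p ∧
        v.valuation K (p : K) < 1 ∧ Pool.Agent.H912.DY.SimplePole
          ((k, (0 : Fin 2)), (1 : Fin 2)) a v} with hbad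
  have hsub : {c | c ∈ Pool.Agent.H912.DY.box ω ((Fin (d + 1) × Fin 2) × Fin 2) X ∧
      c ∉ {c | IsMap c ∧ Typical d (poly c 0) (poly c 1)}} ⊆ ⋃ k, bad k := by
    rintro c ⟨hc, hc'⟩
    by_contra hcon
    rw [Set.mem_iUnion, not_exists] at hcon
    have hpole : ∀ k : Fin (d + 1), ∃ (v : HeightOneSpectrum (𝓞 K)) (p : ℕ), p.Prime ∧
        d + 2 ≤ p ∧ v.valuation K (p : K) < 1 ∧
        Pool.Agent.H912.DY.SimplePole ((k, (0 : Fin 2)), (1 : Fin 2)) c v := by
      intro k
      by_contra h
      exact hcon k ⟨hc, h⟩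
    have hV : ∀ j, j ≤ d → ∃ (v : HeightOneSpectrum (𝓞 K)) (l : ℕ), l.Prime ∧ d + 2 ≤ l ∧
        v.valuation K (l : K) < 1 ∧
        Pool.Agent.H912.DY.PoleQ v (poly c 0) (poly c 1) d j := by
      intro j hj
      obtain ⟨v, l, hl, hld, hlv, hv⟩ := hpole ⟨j, by omega⟩
      exact ⟨v, l, hl, hld, hlv, (of_pole hv).2⟩
    obtain ⟨v, -, -, -, -, hv⟩ := hpole 0
    obtain ⟨h2, h3⟩ := of_pole hv
    rw [Fin.val_zero] at h3
    apply hc'
    refine ⟨⟨h2, h3.coprime (by omega), ?_⟩, typical_of_poles hd hV⟩
    rw [h3.natDegree_q]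
    exact max_eq_right h3.hp
  have h1 : ({c | c ∈ Pool.Agent.H912.DY.box ω ((Fin (d + 1) × Fin 2) × Fin 2) X ∧
      c ∉ {c | IsMap c ∧ Typical d (poly c 0) (poly c 1)}}.ncard : ℝ) ≤
      ∑ k : Fin (d + 1), ((bad k).ncard : ℝ) := by
    have h2 := (Set.ncard_le_ncard hsub (Set.finite_iUnion fun k =>
      (Pool.Agent.H912.DY.finite_box ω X).subset fun a ha => ha.1)).trans
      (Set.ncard_iUnion_le_of_fintype bad)
    exact_mod_cast h2
  calc _ ≤ ∑ k : Fin (d + 1), ((bad k).ncard : ℝ) := h1
    _ ≤ ∑ _k : Fin (d + 1), (ε / (d + 1)) *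
          ((Pool.Agent.H912.DY.box ω ((Fin (d + 1) × Fin 2) × Fin 2) X).ncard : ℝ) :=
        Finset.sum_le_sum fun k _ => hX₀ k X (hle k)
    _ = _ := by
        rw [Finset.sum_const, Finset.card_univ, Fintype.card_fin, nsmul_eq_mul]
        push_cast
        field_simp

end Pool.Agent.Results.MP_13bc7b_nt.ExactDegrees
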