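import Mathlib
import Pool.Agent.H422.BN.Main2

/-!
# Laurent binomials `α z ^ a + l z ^ b` with a pole at `0`: all preperiodic points, all parameters

Let `K` be a number field, `α ≠ 0` in `K`, and `a`, `b` integers, one of them negative and the other
positive, or `a < 0 = b`. Assume `gcd(a, b) ≥ 4` and `a ≠ 4`. For all `l ≠ 0` in `K` the rational map
`f_l(z) = α z ^ a + l z ^ b` has at most `B` preperiodic points in `P¹(K)`, `B` independent of `l`; and for
all but finitely many `l` in `K` the preperiodic points of `f_l` in `K` different from `0` have the same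
`(a - b)`-th power, so that there are at most `|a - b| + 2` preperiodic points in `P¹(K)`.

Special cases, with `n, m > 0`: McMullen's singular perturbations `z ^ n + l / z ^ m` (`n ≥ 5`,
`gcd(n, m) ≥ 4`), their twists `l z ^ n + 1 / z ^ m` (`gcd(n, m) ≥ 4`), and the bicritical maps
`l + 1 / z ^ m` (`m ≥ 4`), whose critical points satisfy `0 → ∞ → l`.

Sketch of the proof. Write `f(z) = β z ^ n + γ / z ^ m`, one of `β`, `γ` being equal to `α`, and let
`j = β ^ (m + 1) γ ^ (n - 1)`. Outside the places dividing `n + m` or `α`: if `|j| = 1` the map has good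
reduction; if `|j| < 1` (and `n > 0`) all periodic points different from `0`, `∞` lie on circles
`|z| = r` which `f` maps to each other like a monomial (nonarchimedean version of McMullen's Cantor set
of circles), the critical circle `|β z ^ (n + m)| = |γ|` being avoided; if `|j| > 1` they all lie on the
critical circle and `f` expands distances by the factor `|β z ^ (n - 1)|`, a power with exponent
`M = |a - 1| ≥ 4`, on discs of this circle (for `n = 0` there is one more, attracting, fixed point). In
all cases, for periodic points `x ≠ y` in `K*` and roots of unity `ζ, ζ' ≠ 1` of order dividing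
`gcd(n, m)`, the order of `(x / y - ζ) / (x / y - ζ')` is divisible by `M`. By Mordell's conjecture for
hyperelliptic curves over number fields (proved in `Pool/Agent/H422/HE`) there are finitely many `x / y`
for all `l` together, and two periodic points with different `(n + m)`-th powers leave finitely many `l`.
For the other `l`, a preperiodic point `x` with `f(x) ^ (n + m) = p ^ (n + m) ≠ x ^ (n + m)`, where
`p` is periodic or a zero of `f`, or with `f(x) = 0`, gives a point `(x / p, p)` with
`β p ^ (n - 1) = (σ t ^ m - τ) / (t ^ (n + m) - 1)`, `t = x / p`, on one of finitely many curves of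
superelliptic type, and again finitely many `l` remain. For the exceptional `l` one uses Northcott's
theorem.
-/

set_option autoImplicit false

namespace Pool.Agent.Results.MP_13bc7b_nt.McMullenMaps

open Pool.Agent.H422.BN

/-- `x` is preperiodic under `f` -/
def Preper {X : Type*} (f : X → X) (x : X) : Prop := ∃ i j : ℕ, i < j ∧ f^[i] x = f^[j] x

theorem result (K : Type) [Field K] [NumberField K] (α : K) (hα : α ≠ 0) (a b : ℤ)
    (hab : (a < 0 ∧ 0 ≤ b) ∨ (b < 0 ∧ 0 < a)) (hg : 4 ≤ Int.gcd a b) (ha : a ≠ 4) :
    ∃ (E : Finset K) (B : ℕ), ∀ l : K, l ≠ 0 →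
      (∀ T : Finset (OnePoint K), (∀ p ∈ T, Preper (lau α l a b) p) → T.card ≤ B) ∧
      (l ∉ E → ∀ x y : K, x ≠ 0 → y ≠ 0 → Preper (lau α l a b) (x : OnePoint K) →
        Preper (lau α l a b) (y : OnePoint K) → x ^ (a - b) = y ^ (a - b)) :=
  main_all K hα hab hg ha

end Pool.Agent.Results.MP_13bc7b_nt.McMullenMaps
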