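import Mathlib
import Pool.Agent.H421.PnC

/-!
# Uniform boundedness for towers of unicritical polynomials on `ℙ ^ N`, over every number field

A triangular endomorphism of degree `d` of `ℙ ^ N` is
`[a_0 x_0 ^ d : a_1 x_1 ^ d + g_1(x_0) : a_2 x_2 ^ d + g_2(x_0, x_1) : ... ]` with arbitrary forms
`g_i` of degree `d` in the variables `x_0, ..., x_(i-1)`.  For `d ≥ 5` and every number field `K` the
number of the `K`-rational preperiodic points is bounded uniformly for all split maps
(`g_i = c_i x_0 ^ d`), for all skew products of the plane (all forms `g_2`), if `g_1 = c x_0 ^ d`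
with `c` outside a finite set, and for all triangular maps, if only those preperiodic points are
counted along whose orbits the parameters `g_i` of the fibre maps are eventually constant.
-/

namespace Pool.Agent.Results.MP_13bc7b_nt.TriangularUnicritical

/-- The self-map of `K ^ (N + 1)` given by the forms `f`. -/
noncomputable def act {K : Type} [Field K] {N : ℕ} (f : Fin (N + 1) → MvPolynomial (Fin (N + 1)) K) :
    (Fin (N + 1) → K) → (Fin (N + 1) → K) :=
  fun x i => MvPolynomial.eval x (f i)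

/-- The point of the projective space given by the vector `x` is preperiodic for `f`. -/
def Preperiodic {K : Type} [Field K] {N : ℕ} (f : Fin (N + 1) → MvPolynomial (Fin (N + 1)) K)
    (x : Fin (N + 1) → K) : Prop :=
  ∃ m n : ℕ, m < n ∧ ∃ c : K, c ≠ 0 ∧ (act f)^[n] x = c • (act f)^[m] x

/-- At most `C` points of `ℙ ^ N (K)` have the property `P`. -/
def AtMost {K : Type} [Field K] {N : ℕ} (C : ℕ) (P : (Fin (N + 1) → K) → Prop) : Prop :=
  ∀ T : Finset (Fin (N + 1) → K), (∀ x ∈ T, x ≠ 0) →
    (∀ x ∈ T, ∀ y ∈ T, ∀ c : K, x = c • y → x = y) → (∀ x ∈ T, P x) → T.card ≤ C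

/-- `f` is the triangular map `[a_0 x_0 ^ d : a_1 x_1 ^ d + g_1(x_0) : ... ]` with nonzero `a_i` and
forms `g_i` of degree `d` in the variables `x_k`, `k < i` (so `g_0 = 0`). -/
def Triangular {K : Type} [Field K] {N : ℕ} (d : ℕ) (a : Fin (N + 1) → K)
    (f g : Fin (N + 1) → MvPolynomial (Fin (N + 1)) K) : Prop :=
  (∀ i, a i ≠ 0) ∧ (∀ i, f i = MvPolynomial.C (a i) * MvPolynomial.X i ^ d + g i) ∧
    (∀ i, (g i).IsHomogeneous d) ∧ ∀ i, ∀ k ∈ (g i).vars, k < i

/-- The parameters `g_i / x_j ^ d`, where `x_j` is the first nonzero coordinate, are eventually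
constant along the orbit of the point given by `x`. -/
def ConstantParameters {K : Type} [Field K] {N : ℕ} (d : ℕ)
    (f g : Fin (N + 1) → MvPolynomial (Fin (N + 1)) K) (x : Fin (N + 1) → K) : Prop :=
  ∀ j, (∀ k < j, x k = 0) → x j ≠ 0 → ∀ i, ∃ n₀, ∀ n ≥ n₀,
    MvPolynomial.eval ((act f)^[n] x) (g i) / ((act f)^[n] x) j ^ d =
      MvPolynomial.eval ((act f)^[n₀] x) (g i) / ((act f)^[n₀] x) j ^ d

/-- **Uniform boundedness for towers of unicritical polynomials over every number field `K`.**
In (1) and (2) let `m ∣ d - 1` and `(m ≥ 4, d ≥ 4)` or `(m ≥ 3, d ≥ 5)` or `(m ≥ 2, d ≥ 6)`, for instance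
`m = d - 1 ≥ 4`.
(1) There is `C` such that for all triangular maps `f` of `ℙ ^ N` of degree `d` over `K` whose
diagonal coefficients are `m`-th powers at most `C` preperiodic points in `ℙ ^ N (K)` have
eventually constant parameters.
(2) There is `C` such that all split maps `[a_0 ^ m x_0 ^ d : a_1 ^ m x_1 ^ d + c_1 x_0 ^ d : ... :
a_N ^ m x_N ^ d + c_N x_0 ^ d]` have at most `C` preperiodic points in `ℙ ^ N (K)`.
(3) For `d ≥ 5` there are `C` and a finite subset `E` of `K` such that for all `c ∉ E`, all `a ≠ 0`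
and ALL forms `g` of degree `d` in `x_0, x_1` the map
`[x_0 ^ d : x_1 ^ d + c x_0 ^ d : a ^ (d - 1) x_2 ^ d + g(x_0, x_1)]` has at most `C` preperiodic
points in `ℙ ^ 2 (K)`. -/
theorem result (K : Type) [Field K] [NumberField K] :
    (∀ N d m : ℕ, m ∣ d - 1 → (4 ≤ m ∧ 4 ≤ d) ∨ (3 ≤ m ∧ 5 ≤ d) ∨ (2 ≤ m ∧ 6 ≤ d) →
      ∃ C : ℕ, ∀ (a : Fin (N + 1) → K) (f g : Fin (N + 1) → MvPolynomial (Fin (N + 1)) K),
        Triangular d (fun i => a i ^ m) f g →
          AtMost C fun x => Preperiodic f x ∧ ConstantParameters d f g x) ∧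
    (∀ N d m : ℕ, m ∣ d - 1 → (4 ≤ m ∧ 4 ≤ d) ∨ (3 ≤ m ∧ 5 ≤ d) ∨ (2 ≤ m ∧ 6 ≤ d) →
      ∃ C : ℕ, ∀ (a c : Fin (N + 1) → K) (f : Fin (N + 1) → MvPolynomial (Fin (N + 1)) K),
        (∀ i, a i ≠ 0) → f 0 = MvPolynomial.C (a 0 ^ m) * MvPolynomial.X 0 ^ d →
        (∀ i, i ≠ 0 → f i = MvPolynomial.C (a i ^ m) * MvPolynomial.X i ^ d +
          MvPolynomial.C (c i) * MvPolynomial.X 0 ^ d) →
          AtMost C fun x => Preperiodic f x) ∧
    (∀ d : ℕ, 5 ≤ d → ∃ (C : ℕ) (E : Set K), E.Finite ∧ ∀ c ∉ E, ∀ (a : K)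
        (g : MvPolynomial (Fin 3) K) (f : Fin 3 → MvPolynomial (Fin 3) K), a ≠ 0 →
        g.IsHomogeneous d → (∀ k ∈ g.vars, k < 2) →
        f 0 = MvPolynomial.X 0 ^ d →
        f 1 = MvPolynomial.X 1 ^ d + MvPolynomial.C c * MvPolynomial.X 0 ^ d →
        f 2 = MvPolynomial.C (a ^ (d - 1)) * MvPolynomial.X 2 ^ d + g →
          AtMost (N := 2) C fun x => Preperiodic f x) := by
  classical
  refine ⟨?_, ?_, ?_⟩
  · intro N d m hm h
    obtain ⟨C, hC⟩ := Pool.Agent.H421.PN.tri_main K (N := N) (d := d) (m := m) h hm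
    refine ⟨C, fun a f g hT T h0 h1 h2 => ?_⟩
    exact hC a f g ⟨hT.1, hT.2.1, hT.2.2.1, hT.2.2.2⟩ T h0 h1 (fun x hx => (h2 x hx).1)
      (fun x hx j hj => (h2 x hx).2 j hj.1 hj.2)
  · intro N d m hm h
    have hd : 0 < d := by omega
    have hm0 : m ≠ 0 := by omega
    obtain ⟨C, hC⟩ := Pool.Agent.H421.PN.tri_main K (N := N) (d := d) (m := m) h hm
    refine ⟨C, fun a c f ha hf0 hf T h0 h1 h2 => ?_⟩
    set c' : Fin (N + 1) → K := fun i => if i = 0 then 0 else c i with hc'
    set g : Fin (N + 1) → MvPolynomial (Fin (N + 1)) K :=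
      fun i => MvPolynomial.C (c' i) * MvPolynomial.X 0 ^ d with hg
    have hT : Pool.Agent.H421.PN.Tri d (fun i => a i ^ m) f g := by
      refine ⟨fun i => pow_ne_zero _ (ha i), ?_, ?_, ?_⟩
      · intro i
        by_cases hi : i = 0
        · subst hi
          rw [hf0, hg, hc']
          simp
        · rw [hf i hi, hg, hc']
          simp [hi]
      · intro i
        have h3 := (MvPolynomial.isHomogeneous_C (Fin (N + 1)) (c' i)).mul
          (MvPolynomial.isHomogeneous_X_pow (R := K) (0 : Fin (N + 1)) d)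
        rwa [zero_add] at h3
      · intro i k hk
        by_cases hi : i = 0
        · exfalso
          rw [hg, hc'] at hk
          simp [hi] at hk
        · have h3 : k ∈ (MvPolynomial.X 0 ^ d : MvPolynomial (Fin (N + 1)) K).vars := by
            have h4 := MvPolynomial.vars_mul _ _ hk
            rw [MvPolynomial.vars_C, Finset.empty_union] at h4
            exact h4
          have h5 := MvPolynomial.vars_pow _ _ h3
          rw [MvPolynomial.vars_X, Finset.mem_singleton] at h5
          rw [h5]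
          exact Fin.pos_of_ne_zero hi
    refine hC a f g hT T h0 h1 h2 ?_
    intro x hx j hj i
    refine ⟨0, fun n _ => ?_⟩
    rw [Pool.Agent.H421.PN.split_const hd hT (i := i) rfl hj,
      Pool.Agent.H421.PN.split_const hd hT (i := i) rfl hj]
  · intro d hd
    obtain ⟨C, hC⟩ := Pool.Agent.H421.PN.tri_main K (N := 2) (d := d) (m := d - 1)
      (by unfold Pool.Agent.H421.TW.Range; omega) dvd_rfl
    obtain ⟨E, hE, hE2⟩ := Pool.Agent.H421.PN.skew_main K hd
    refine ⟨C, E, hE, fun c hc a g f ha hgh hgv hf0 hf1 hf2 T h0 h1 h2 => ?_⟩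
    set G : Fin 3 → MvPolynomial (Fin 3) K :=
      ![0, MvPolynomial.C c * MvPolynomial.X 0 ^ d, g] with hG
    have key : ∀ i, f i = MvPolynomial.C ((![1, 1, a ^ (d - 1)] : Fin 3 → K) i) *
        MvPolynomial.X i ^ d + G i := by
      intro i
      match i with
      | 0 => rw [hf0, hG]; simp
      | 1 => rw [hf1, hG]; simp
      | 2 => rw [hf2, hG]; simp
    have khom : ∀ i, (G i).IsHomogeneous d := by
      intro i
      match i with
      | 0 => exact MvPolynomial.isHomogeneous_zero _ _ _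
      | 1 =>
        have h3 := (MvPolynomial.isHomogeneous_C (Fin 3) c).mul
          (MvPolynomial.isHomogeneous_X_pow (R := K) (0 : Fin 3) d)
        rw [zero_add] at h3
        exact h3
      | 2 => exact hgh
    have kvars : ∀ i, ∀ k ∈ (G i).vars, k < i := by
      intro i
      match i with
      | 0 =>
        intro k hk
        rw [hG] at hk
        simp at hk
      | 1 =>
        intro k hk
        have h4 := MvPolynomial.vars_mul _ _ hk
        rw [MvPolynomial.vars_C, Finset.empty_union] at h4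
        have h5 := MvPolynomial.vars_pow _ _ h4
        rw [MvPolynomial.vars_X, Finset.mem_singleton] at h5
        rw [h5]
        decide
      | 2 => exact hgv
    have hT : Pool.Agent.H421.PN.Tri d ![1, 1, a ^ (d - 1)] f G := by
      refine ⟨?_, key, khom, kvars⟩
      intro i
      match i with
      | 0 => exact one_ne_zero
      | 1 => exact one_ne_zero
      | 2 => exact pow_ne_zero _ ha
    have hT' : Pool.Agent.H421.PN.Tri d (fun i => (![1, 1, a] : Fin 3 → K) i ^ (d - 1)) f G := by
      have heq : (fun i => (![1, 1, a] : Fin 3 → K) i ^ (d - 1)) = ![1, 1, a ^ (d - 1)] := by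
        funext i
        match i with
        | 0 => simp
        | 1 => simp
        | 2 => simp
      rw [heq]
      exact hT
    exact hC ![1, 1, a] f G hT' T h0 h1 h2 fun x hx => hE2 c hc a f G hT rfl x (h2 x hx)

end Pool.Agent.Results.MP_13bc7b_nt.TriangularUnicritical
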